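import Pool.Agent.V11229.CDisc
import Pool.Agent.V11229.ColSrc

/-!
# Thresholds of the chromatic discrepancy are `coNP`-hard
-/

namespace Pool.Agent.Results.MP_e16607_lc.DiscrepancyCoNPHard

open Pool.Agent.NPC Pool.Agent.V11229 Pool.Agent.V11229.CD

/-- The language `L₁`: graphs with chromatic discrepancy at most `k`. -/
def L₁ (x : FG × ℕ) : Prop := phi x.1.G ≤ x.2

/-- The language `L₂`: graphs with connected chromatic discrepancy at most `k`. -/
def L₂ (x : FG × ℕ) : Prop := phiHat x.1.G ≤ x.2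

/-! ### Invariance -/

section Iso

variable {V W : Type} {G : SimpleGraph V} {H : SimpleGraph W}

theorem chi_iso (e : G ≃g H) : chi G = chi H := by
  unfold chi
  congr 1
  ext k
  exact ⟨fun ⟨d⟩ => ⟨d.comp e.symm.toHom⟩, fun ⟨d⟩ => ⟨d.comp e.toHom⟩⟩

/-- isomorphisms restrict to induced subgraphs -/
def indIso (e : G ≃g H) (S : Set W) : G.induce (e ⁻¹' S) ≃g H.induce S where
  toFun x := ⟨e x.1, x.2⟩
  invFun y := ⟨e.symm y.1, by
    change e (e.symm y.1) ∈ S
    rw [e.apply_symm_apply]
    exact y.2⟩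
  left_inv x := by simp
  right_inv y := by simp
  map_rel_iff' := by
    intro a b
    exact e.map_adj_iff

theorem image_eq (e : G ≃g H) (c : V → ℕ) (S : Set W) :
    (fun w => c (e.symm w)) '' S = c '' (e ⁻¹' S) := by
  ext m
  constructor
  · rintro ⟨w, hw, rfl⟩
    refine ⟨e.symm w, ?_, rfl⟩
    change e (e.symm w) ∈ S
    rw [e.apply_symm_apply]
    exact hw
  · rintro ⟨v, hv, rfl⟩
    exact ⟨e v, hv, by simp⟩

theorem phi_le_of_iso [Fintype V] [Fintype W] (e : G ≃g H) {k : ℕ} (h : phi G ≤ k) :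
    phi H ≤ k := by
  rw [phi_le_iff] at h ⊢
  obtain ⟨c, h1, h2⟩ := h
  refine ⟨fun w => c (e.symm w), fun u v huv => h1 _ _ (e.symm.map_adj_iff.2 huv), fun S => ?_⟩
  rw [image_eq e c S, ← chi_iso (indIso e S)]
  exact h2 _

theorem phiHat_le_of_iso [Fintype V] [Fintype W] (e : G ≃g H) {k : ℕ} (h : phiHat G ≤ k) :
    phiHat H ≤ k := by
  rw [phiHat_le_iff] at h ⊢
  obtain ⟨c, h1, h2⟩ := h
  refine ⟨fun w => c (e.symm w), fun u v huv => h1 _ _ (e.symm.map_adj_iff.2 huv), fun S hS => ?_⟩
  rw [image_eq e c S, ← chi_iso (indIso e S)]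
  exact h2 _ ((indIso e S).connected_iff.2 hS)

end Iso

/-! ### The reduction from 3-colourability -/

/-- the cone over `M`, with four further vertices joined to the apex -/
def adj0 (M : LMat Bool) (i j : ℕ) : Bool :=
  !(decide (i = j)) && (decide (i = 0) || (decide (j = 0) ||
    (decide (5 ≤ i) && (decide (5 ≤ j) && M.ent false (i - 5) (j - 5)))))

/-- the layered graph, in one direction -/
def adL (M : LMat Bool) (x y : ℕ × ℕ) : Bool :=
  !(decide (x.1 = y.1)) && (!(decide (x.2 = y.2)) || (decide (x.2 = M.n + 5) || adj0 M x.1 y.1))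

/-- the list of the vertices -/
def vsL (n : ℕ) : List (ℕ × ℕ) := List.range n ×ˢ List.range (n + 1)

/-- the reduction -/
def red (M : LMat Bool) : FG × ℕ := (FG.ofList (vsL (M.n + 5)) (adL M), M.n)

theorem red_poly : Poly red := by
  unfold red
  have h1 : UPoly (fun M : LMat Bool => M.n + 5) :=
    UPoly.add (UPoly.lmat_n (by fun_prop)) (UPoly.const 5)
  refine NPC.Poly.pair (Poly.FG_ofList (ad := adL) ?_ ?_) (by fun_prop)
  · unfold vsL
    have h2 := UPoly.range h1
    have h3 := UPoly.range (UPoly.add h1 (UPoly.const 1))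
    fun_prop
  · unfold adL adj0
    fun_prop

/-- the cone, as a graph -/
def cone (M : LMat Bool) (h : IsAdj M) : SimpleGraph (Fin (M.n + 5)) where
  Adj i j := adj0 M i j = true
  symm := ⟨fun i j hij => by
    simp only [adj0, Bool.and_eq_true, Bool.or_eq_true, Bool.not_eq_true', decide_eq_false_iff_not,
      decide_eq_true_eq] at hij ⊢
    obtain ⟨h1, h2⟩ := hij
    refine ⟨fun h => h1 h.symm, ?_⟩
    rcases h2 with h2 | h2 | ⟨h2, h3, h4⟩
    · exact Or.inr (Or.inl h2)
    · exact Or.inl h2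
    · right; right
      refine ⟨h3, h2, ?_⟩
      have e1 := i.isLt
      have e2 := j.isLt
      rw [LMat.ent_lt M false (by omega) (by omega)] at h4 ⊢
      rw [h.1]
      exact h4⟩
  loopless := ⟨fun i hi => by simp [adj0] at hi⟩

theorem cone_adj0 (M : LMat Bool) (h : IsAdj M) (i : Fin (M.n + 5)) (hi : i ≠ 0) :
    (cone M h).Adj i 0 := by
  have : (i : ℕ) ≠ 0 := fun hh => hi (Fin.ext hh)
  simp [cone, adj0, this]

theorem cone_adj5 (M : LMat Bool) (h : IsAdj M) (u v : Fin M.n) :
    (cone M h).Adj ⟨u + 5, by omega⟩ ⟨v + 5, by omega⟩ ↔ M.f u v = true := by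
  have h1 := LMat.ent_fin M false u v
  simp only [cone, adj0, Nat.add_sub_cancel, h1]
  by_cases huv : u = v
  · subst huv
    simp [h.2]
  · have : (u : ℕ) ≠ v := fun hh => huv (Fin.ext hh)
    simp [this]

theorem cone_connected (M : LMat Bool) (h : IsAdj M) : (cone M h).Connected := by
  have key : ∀ x, (cone M h).Reachable x 0 := by
    intro x
    by_cases hx : x = 0
    · rw [hx]
    · exact (cone_adj0 M h x hx).reachable
  exact (SimpleGraph.connected_iff _).2 ⟨fun x y => (key x).trans (key y).symm, ⟨0⟩⟩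

theorem cone_colorable (M : LMat Bool) (h : IsAdj M) :
    (cone M h).Colorable 4 ↔ ColM 3 M := by
  constructor
  · rintro ⟨d⟩
    have hne : ∀ u : Fin M.n, d ⟨u + 5, by omega⟩ ≠ d 0 := by
      intro u
      apply d.valid
      apply cone_adj0
      intro hh
      have := congrArg Fin.val hh
      simp at this
    refine ⟨fun u => (finSuccAboveEquiv (d 0)).symm ⟨_, hne u⟩, fun u v huv heq => ?_⟩
    have h1 := (finSuccAboveEquiv (d 0)).symm.injective heq
    simp only [Subtype.mk.injEq] at h1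
    exact d.valid ((cone_adj5 M h u v).2 huv) h1
  · rintro ⟨c, hc⟩
    refine ⟨SimpleGraph.Coloring.mk (fun i : Fin (M.n + 5) =>
      if h0 : (i : ℕ) = 0 then (Fin.last 3 : Fin 4) else
        if h5 : 5 ≤ (i : ℕ) then Fin.castSucc (c ⟨i - 5, by omega⟩) else (0 : Fin 4)) ?_⟩
    intro i j hij heq
    simp only [cone, adj0, Bool.and_eq_true, Bool.or_eq_true, Bool.not_eq_true',
      decide_eq_false_iff_not, decide_eq_true_eq] at hij
    obtain ⟨h1, h2⟩ := hij
    have hcs : ∀ x : Fin 3, (Fin.castSucc x : Fin 4) ≠ Fin.last 3 := fun x =>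
      (Fin.castSucc_lt_last x).ne
    have h04 : (0 : Fin 4) ≠ Fin.last 3 := by decide
    rcases h2 with h2 | h2 | ⟨h2, h3, h4⟩
    · have hj : (j : ℕ) ≠ 0 := fun hh => h1 (by rw [h2, hh])
      rw [dif_pos h2, dif_neg hj] at heq
      split_ifs at heq
      · exact hcs _ heq.symm
      · exact h04 heq.symm
    · have hi : (i : ℕ) ≠ 0 := fun hh => h1 (by rw [h2, hh])
      rw [dif_pos h2, dif_neg hi] at heq
      split_ifs at heq
      · exact hcs _ heq
      · exact h04 heq
    · have e1 := i.isLt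
      have e2 := j.isLt
      rw [dif_neg (show ¬ (i : ℕ) = 0 by omega), dif_neg (show ¬ (j : ℕ) = 0 by omega),
        dif_pos h2, dif_pos h3] at heq
      rw [LMat.ent_lt M false (by omega) (by omega)] at h4
      exact hc _ _ h4 (Fin.castSucc_injective _ heq)

/-- labels of the vertices of the layered graph -/
def lab {n : ℕ} (x : Fin n × Option (Fin n)) : ℕ × ℕ :=
  (x.1, match x.2 with | some i => (i : ℕ) | none => n)

theorem lab_injective {n : ℕ} : Function.Injective (lab : Fin n × Option (Fin n) → ℕ × ℕ) := by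
  rintro ⟨u, (_ | i)⟩ ⟨v, (_ | j)⟩ h <;> simp only [lab, Prod.mk.injEq] at h
  · rw [Fin.ext h.1]
  · exact absurd h.2 (by have := j.isLt; omega)
  · exact absurd h.2 (by have := i.isLt; omega)
  · rw [Fin.ext h.1, Fin.ext h.2]

theorem mem_vsL {n : ℕ} (z : ℕ × ℕ) :
    z ∈ vsL n ↔ ∃ x : Fin n × Option (Fin n), lab x = z := by
  unfold vsL
  obtain ⟨u, i⟩ := z
  constructor
  · intro h
    obtain ⟨h1, h2⟩ := List.mem_product.1 h
    rw [List.mem_range] at h1 h2
    rcases Nat.lt_or_ge i n with h3 | h3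
    · exact ⟨(⟨u, h1⟩, some ⟨i, h3⟩), rfl⟩
    · refine ⟨(⟨u, h1⟩, none), ?_⟩
      simp only [lab, Prod.mk.injEq, true_and]
      omega
  · rintro ⟨⟨v, (_ | j)⟩, h⟩
    · simp only [lab, Prod.mk.injEq] at h
      exact List.mem_product.2 ⟨List.mem_range.2 (by have := v.isLt; omega),
        List.mem_range.2 (by omega)⟩
    · simp only [lab, Prod.mk.injEq] at h
      exact List.mem_product.2 ⟨List.mem_range.2 (by have := v.isLt; omega),
        List.mem_range.2 (by have := j.isLt; omega)⟩

theorem red_iso (M : LMat Bool) (h : IsAdj M) :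
    Nonempty ((red M).1.G ≃g LG (cone M h) (Fin (M.n + 5))) := by
  refine FG.ofList_iso (vsL (M.n + 5)) (List.Nodup.product List.nodup_range List.nodup_range) lab
    lab_injective mem_vsL (adL M) _ ?_
  intro x y
  constructor
  · intro hxy
    refine ⟨fun hh => hxy.1 (by rw [hh]), Or.inl ?_⟩
    obtain ⟨h1, h2⟩ := hxy
    have h1' : (x.1 : ℕ) ≠ y.1 := fun hh => h1 (Fin.ext hh)
    simp only [adL, Bool.and_eq_true, Bool.or_eq_true, Bool.not_eq_true',
      decide_eq_false_iff_not, decide_eq_true_eq]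
    refine ⟨h1', ?_⟩
    rcases h2 with h2 | h2 | h2
    · left
      intro hh
      apply h2
      obtain ⟨u, (_ | i)⟩ := x <;> obtain ⟨v, (_ | j)⟩ := y <;> simp only [lab] at hh ⊢
      · exact absurd hh (by have := j.isLt; omega)
      · exact absurd hh (by have := i.isLt; omega)
      · rw [Fin.ext hh]
    · right; left
      obtain ⟨u, (_ | i)⟩ := x
      · rfl
      · exact absurd h2 (by simp)
    · right; right
      exact h2
  · have key : ∀ x y : Fin (M.n + 5) × Option (Fin (M.n + 5)), adL M (lab x) (lab y) = true →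
        (LG (cone M h) (Fin (M.n + 5))).Adj x y := by
      intro x y hxy
      simp only [adL, Bool.and_eq_true, Bool.or_eq_true, Bool.not_eq_true',
        decide_eq_false_iff_not, decide_eq_true_eq] at hxy
      obtain ⟨h1, h2⟩ := hxy
      refine ⟨fun hh => h1 (by simp [lab, hh]), ?_⟩
      rcases h2 with h2 | h2 | h2
      · left
        intro hh
        apply h2
        simp [lab, hh]
      · right; left
        obtain ⟨u, (_ | i)⟩ := x
        · rfl
        · simp only [lab] at h2
          exact absurd h2 (by have := i.isLt; omega)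
      · right; right
        exact h2
    rintro ⟨_, h2 | h2⟩
    · exact key x y h2
    · exact (key y x h2).symm

theorem red_iff (M : LMat Bool) (h : IsAdj M) :
    (L₁ (red M) ↔ ¬ ColM 3 M) ∧ (L₂ (red M) ↔ ¬ ColM 3 M) := by
  obtain ⟨e⟩ := red_iso M h
  have h1 := phi_LG (ι := Fin (M.n + 5)) (cone M h) (r := 4) (cone_connected M h)
    (by rw [Fintype.card_fin]; omega) (le_refl _)
  rw [cone_colorable, Fintype.card_fin] at h1
  have h2 : M.n + 5 - (4 + 1) = M.n := by omega
  rw [h2] at h1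
  constructor
  · rw [← h1.1]
    exact ⟨phi_le_of_iso e, phi_le_of_iso e.symm⟩
  · rw [← h1.2]
    exact ⟨phiHat_le_of_iso e, phiHat_le_of_iso e.symm⟩

theorem coNPHard_L₁ : CoNPHardP L₁ :=
  ((hardPr_colM 3 le_rfl).trans (Pr' := fun _ => True) (Q := fun x => ¬ L₁ x) red_poly
    (fun _ _ => trivial) (fun M h => by rw [(red_iff M h).1, not_not])).toCoNPHardP

theorem coNPHard_L₂ : CoNPHardP L₂ :=
  ((hardPr_colM 3 le_rfl).trans (Pr' := fun _ => True) (Q := fun x => ¬ L₂ x) red_poly
    (fun _ _ => trivial) (fun M h => by rw [(red_iff M h).2, not_not])).toCoNPHardP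

/-- **Both threshold languages of the chromatic discrepancy are `coNP`-hard; if one of them is in
`NP` then `NP = coNP`.** -/
theorem result : CoNPHardP L₁ ∧ CoNPHardP L₂ ∧
    (InNPP L₁ → ∀ L : Set (List Bool), InNP L ↔ InCoNP L) ∧
    (InNPP L₂ → ∀ L : Set (List Bool), InNP L ↔ InCoNP L) :=
  ⟨coNPHard_L₁, coNPHard_L₂, np_eq_conp coNPHard_L₁, np_eq_conp coNPHard_L₂⟩

end Pool.Agent.Results.MP_e16607_lc.DiscrepancyCoNPHard
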